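import Pool.Agent.Run7.h876.HY.Cent

/-!
# The order of the mean L-series at the centre is the number of the marked points

`K` is any number field and `f_t = F₀ + (∏ (X - x_i)) (t₀ X + t₁ + ∑ t_j P_j)` a family of monic
polynomials over the ring of integers with parameters `t₀, t₁, t_j`.  All the hyperelliptic curves
`y² = f_t(x)` (of any genus `≥ 1`) pass through the given points `(x_i, y_i)`, `i < r`.  Let `ρ = r` if
the degree is odd and `ρ = r + 1` if it is even: this is the number of the marked points of the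
Jacobians `J_t` (the differences of `(x_i, y_i)` and `(x_i, -y_i)` and, in even degree, of the two points
at infinity).

For every integer `k` the mean value of `L(J_t, s)^k` over the `t` with coordinates in a large box
converges for `Re s > 3/2` to `ζ_K(s)^(-kρ) ζ_K(2s-1)^(k(k-1)/2) G(s)`, where `G` is holomorphic for
`Re s > 5/6` and positive at the real points `s > 5/6`.  So the mean value continues past the centre
`s = 1` and its order there is exactly `kρ - k(k-1)/2`.  For `k = 1`: **the mean value of the L-series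
vanishes at the centre to the order exactly `ρ`.**  Past the edge of convergence, for instance at `s = 1`
itself, the same is true for the partial Euler products.
-/

set_option autoImplicit false
open NumberField IsDedekindDomain Filter Topology

namespace Pool.Agent.Results.MP_1d384c_nt.MarkedPointsOnAverage

open Run7.h876.HY Run7.h876.EN

/-- **The moments of the L-series of the Jacobians of hyperelliptic curves with marked points.** -/
theorem result (K : Type) [Field K] [NumberField K] (J : Type) [Fintype J] [DecidableEq J]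
    (𝓕 : Family K J) (k : ℤ) (κ : ℕ) (hκ : 2 * (κ : ℤ) = k * (k - 1)) :
    ∃ G : ℂ → ℂ, DifferentiableOn ℂ G {s | 5 / 6 < s.re} ∧
      (∀ x : ℝ, 5 / 6 < x → ∃ r : ℝ, 0 < r ∧ G x = r) ∧
      (∃ c : ℝ, 0 < c ∧ Tendsto (fun x : ℝ => ((x : ℂ) - 1) ^ (κ - k * 𝓕.rk) *
        (dedekindZeta K x ^ (-(k * 𝓕.rk)) * dedekindZeta K (2 * x - 1) ^ κ * G x)) (𝓝[>] 1) (𝓝 (c : ℂ))) ∧
      ∀ (ι : Type) [Fintype ι] [DecidableEq ι] (ω : Module.Basis ι ℤ (𝓞 K)),
        (∀ δ : ℝ, 0 < δ → ∀ ε : ℝ, 0 < ε → ∃ M : ℕ, ∀ H : Fin 2 ⊕ J → ℕ, (∀ j, M ≤ H j) →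
          ∀ s : ℂ, 3 / 2 + δ ≤ s.re →
          ‖mean ω H 𝓕.smooth (fun t => LSeries (𝓕.member t) s ^ k) -
            dedekindZeta K s ^ (-(k * 𝓕.rk)) * dedekindZeta K (2 * s - 1) ^ κ * G s‖ ≤ ε) ∧
        (∀ σ : ℝ, 5 / 6 < σ → ∀ θ : ℝ, 0 < θ → ∀ ε : ℝ, 0 < ε → ∃ Z₀ : ℕ, ∀ Z : ℕ, Z₀ ≤ Z →
          ∀ H : Fin 2 ⊕ J → ℕ, (∀ j, Real.exp ((Z : ℝ) ^ (1 + θ)) ≤ H j) → ∀ s : ℂ, σ ≤ s.re →
          ‖mean ω H 𝓕.smooth (fun t => partialProduct Z (𝓕.member t) s ^ k) *
            partialZeta K Z s ^ (k * 𝓕.rk) * (partialZeta K Z (2 * s - 1) ^ κ)⁻¹ - G s‖ ≤ ε) := by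
  refine ⟨GG 𝓕 k, GG_diff 𝓕 k, fun x hx => ?_, ?_, fun ι _ _ ω => ⟨fun δ hδ ε hε => ?_, fun σ hσ θ hθ ε hε => ?_⟩⟩
  · have := GG_real 𝓕 (k : ℝ) hx
    simpa using this
  · exact central (GG_diff 𝓕 k) (fun x hx => by
      have := GG_real 𝓕 (k : ℝ) hx
      simpa using this) (-(k * (𝓕.rk : ℤ))) κ
  · exact part1 𝓕 ω hκ hδ hε
  · exact part2 𝓕 ω hκ hσ hθ hε

end Pool.Agent.Results.MP_1d384c_nt.MarkedPointsOnAverage
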